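import Pool.Agent.H143R3.BT.Surv

/-!
# The final statement for the survival event `{T > t}`
-/

namespace Pool.Agent.H143R3.BT.FinS

open Pool.Agent.H143R3.BT MeasureTheory ProbabilityTheory Filter Topology
open scoped ENNReal NNReal

universe u

section
variable {Ω : Type u} [MeasurableSpace Ω] {P : Measure Ω} [IsProbabilityMeasure P]
  {lam : ℝ≥0} {X : ℝ≥0 → Ω → ℝ} {x : ℕ → Ω → ℝ} {Y : ℕ → ℝ≥0 → Ω → ℝ} {a : ℝ}

theorem disp_eq_nrm (hM : TaskM.{u}) (hX : IsBM P X) (t : ℝ≥0) :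
    ∀ᵐ ω ∂P, disp X t ω = nrm t (fun u => X u ω) := by
  obtain ⟨_, _, _, _, hlub⟩ := hM Ω P X hX t
  filter_upwards [hX.cont] with ω hc
  have h1 := hlub _ hc
  have h2 := hlub (fun u => -(X u ω)) hc.neg
  have hne : ((fun u => X u ω) '' Set.Iic t).Nonempty := ⟨_, ⟨0, by simp, rfl⟩⟩
  have e1 : sSup (range X t ω) = sp t (fun u => X u ω) := by
    rw [range]; exact h1.csSup_eq hne
  have e2 : -(sInf (range X t ω)) = sp t (fun u => -(X u ω)) := by
    have hne2 : ((fun u => -(X u ω)) '' Set.Iic t).Nonempty := ⟨_, ⟨0, by simp, rfl⟩⟩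
    rw [← h2.csSup_eq hne2, range]
    have : (fun u => -(X u ω)) '' Set.Iic t = -((fun u => X u ω) '' Set.Iic t) := by
      ext y
      simp only [Set.mem_image, Set.mem_Iic, Set.mem_neg]
      constructor
      · rintro ⟨u, hu, rfl⟩; exact ⟨u, hu, by simp⟩
      · rintro ⟨u, hu, h⟩; exact ⟨u, hu, by rw [h]; simp⟩
    rw [this, Real.sSup_neg]
  rw [disp, nrm, e1, e2]

omit [IsProbabilityMeasure P] in
theorem meas_path (hX : IsBM P X) : Measurable (fun ω => (fun u => X u ω : ℝ≥0 → ℝ)) :=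
  measurable_pi_lambda _ hX.meas

theorem meas_wt (hM : TaskM.{u}) (hY : IsBM P (Y 0)) (t : ℝ≥0) :
    Measurable (wt lam P (Y 0) t) := by
  obtain ⟨hH, _⟩ := hM Ω P (Y 0) hY t
  unfold wt
  exact (Real.measurable_exp.comp (hH.const_mul _).neg).ennreal_ofReal

/-- the partition function -/
noncomputable def ZZ (P : Measure Ω) (lam : ℝ≥0) (X : ℝ≥0 → Ω → ℝ) (Y : ℕ → ℝ≥0 → Ω → ℝ)
    (t : ℝ≥0) : ℝ≥0∞ := ∫⁻ ω, wt lam P (Y 0) t (fun u => X u ω) ∂P

theorem alive_eq (hV : VSStmt.{u, u}) (hT : TrapModel P lam X x Y) (ha : 0 ≤ a) (t : ℝ≥0) :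
    P (surv a X x Y t) = ENNReal.ofReal (Real.exp (-(lam * (2 * a)))) * ZZ P lam X Y t := by
  have := hV Ω P lam X x Y Ω P (Y 0) a hT (hT.traps 0) ha t Set.univ MeasurableSet.univ
  simpa [ZZ] using this

theorem ZZ_pos (hM : TaskM.{u}) (hT : TrapModel P lam X x Y) (t : ℝ≥0) :
    0 < ZZ P lam X Y t := by
  unfold ZZ
  have hm : Measurable fun ω => wt lam P (Y 0) t (fun u => X u ω) :=
    (meas_wt hM (hT.traps 0) t).comp (meas_path hT.particle)
  rw [lintegral_pos_iff_support hm]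
  have : Function.support (fun ω => wt lam P (Y 0) t (fun u => X u ω)) = Set.univ := by
    ext ω
    simp only [Function.mem_support, Set.mem_univ, iff_true, wt]
    rw [ne_eq, ENNReal.ofReal_eq_zero, not_le]
    exact Real.exp_pos _
  rw [this]
  simp

theorem alive_pos (hM : TaskM.{u}) (hV : VSStmt.{u, u}) (hT : TrapModel P lam X x Y)
    (ha : 0 ≤ a) (t : ℝ≥0) : 0 < P (surv a X x Y t) := by
  rw [alive_eq hV hT ha t]
  exact ENNReal.mul_pos (by
    rw [ne_eq, ENNReal.ofReal_eq_zero, not_le]; exact Real.exp_pos _) (ZZ_pos hM hT t).ne'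

theorem ZZ_ne_top (hV : VSStmt.{u, u}) (hT : TrapModel P lam X x Y) (t : ℝ≥0) :
    ZZ P lam X Y t ≠ ∞ := by
  intro h
  have := alive_eq hV hT (le_refl (0 : ℝ)) t
  rw [h] at this
  simp at this

theorem cond_mul (hM : TaskM.{u}) (hV : VSStmt.{u, u}) (hT : TrapModel P lam X x Y)
    (ha : 0 ≤ a) (t : ℝ≥0) (A : Set (ℝ≥0 → ℝ)) (hA : MeasurableSet A) (S : Set Ω)
    (hS : S =ᵐ[P] {ω | (fun u => X u ω) ∈ A}) :
    (ProbabilityTheory.cond P (surv a X x Y t)) S * ZZ P lam X Y t =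
      ∫⁻ ω in {ω | (fun u => X u ω) ∈ A}, wt lam P (Y 0) t (fun u => X u ω) ∂P := by
  have h1 : (ProbabilityTheory.cond P (surv a X x Y t)) S =
      (P (surv a X x Y t))⁻¹ * P ({ω | (fun u => X u ω) ∈ A} ∩ surv a X x Y t) := by
    rw [ProbabilityTheory.cond, Measure.smul_apply, smul_eq_mul]
    congr 1
    have : S =ᵐ[P.restrict (surv a X x Y t)] {ω | (fun u => X u ω) ∈ A} :=
      ae_restrict_of_ae hS
    rw [measure_congr this, Measure.restrict_apply]
    exact meas_path hT.particle hA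
  rw [h1, hV Ω P lam X x Y Ω P (Y 0) a hT (hT.traps 0) ha t A hA, alive_eq hV hT ha t]
  set e := ENNReal.ofReal (Real.exp (-(lam * (2 * a))))
  have he0 : e ≠ 0 := by
    rw [ne_eq, ENNReal.ofReal_eq_zero, not_le]; exact Real.exp_pos _
  have het : e ≠ ∞ := ENNReal.ofReal_ne_top
  have hZ0 := (ZZ_pos (P := P) hM hT t).ne'
  have hZt := ZZ_ne_top (P := P) hV hT t
  rw [ENNReal.mul_inv (Or.inl he0) (Or.inl het)]
  calc e⁻¹ * (ZZ P lam X Y t)⁻¹ * (e * ∫⁻ ω in {ω | (fun u => X u ω) ∈ A},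
        wt lam P (Y 0) t (fun u => X u ω) ∂P) * ZZ P lam X Y t
      = (e⁻¹ * e) * ((ZZ P lam X Y t)⁻¹ * ZZ P lam X Y t) * ∫⁻ ω in {ω | (fun u => X u ω) ∈ A},
        wt lam P (Y 0) t (fun u => X u ω) ∂P := by ring
    _ = _ := by
      rw [ENNReal.inv_mul_cancel he0 het, ENNReal.inv_mul_cancel hZ0 hZt, one_mul, one_mul]

/-- bound on the conditional probability from a bound on the integral -/
theorem cond_le (hM : TaskM.{u}) (hV : VSStmt.{u, u}) (hT : TrapModel P lam X x Y)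
    (ha : 0 ≤ a) (t : ℝ≥0) (A : Set (ℝ≥0 → ℝ)) (hA : MeasurableSet A) (S : Set Ω)
    (hS : S =ᵐ[P] {ω | (fun u => X u ω) ∈ A}) (b : ℝ≥0∞)
    (hb : ∫⁻ ω in {ω | (fun u => X u ω) ∈ A}, wt lam P (Y 0) t (fun u => X u ω) ∂P ≤
      b * ZZ P lam X Y t) :
    (ProbabilityTheory.cond P (surv a X x Y t)) S ≤ b := by
  rw [← cond_mul hM hV hT ha t A hA S hS] at hb
  exact (ENNReal.mul_le_mul_iff_left (ZZ_pos (P := P) hM hT t).ne' (ZZ_ne_top (P := P) hV hT t)).1 hb

/-- Markov's inequality -/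
theorem markov (hM : TaskM.{u}) (hR : RecStmt.{u, u}) (hV : VSStmt.{u, u}) (hl : 0 < lam) :
    ∃ C : ℝ, 0 < C ∧ ∀ (a : ℝ), 0 ≤ a → TrapModel P lam X x Y → ∀ t : ℝ≥0, 2 ≤ t →
      ∀ r : ℝ, 0 < r →
      (ProbabilityTheory.cond P (surv a X x Y t))
        {ω | r * ((t : ℝ) ^ (1 / 3 : ℝ) * Real.log t) ≤ disp X t ω} ≤ ENNReal.ofReal (C / r) := by
  obtain ⟨C, hC, h⟩ := hR lam hl
  refine ⟨C, hC, fun a ha hT t ht r hr => ?_⟩
  have hX := hT.particle
  have hrec := h Ω P X Ω P (Y 0) hX (hT.traps 0) t ht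
  set L : ℝ := (t : ℝ) ^ (1 / 3 : ℝ) * Real.log t with hL
  have ht2 : (2 : ℝ) ≤ (t : ℝ) := by exact_mod_cast ht
  have hL0 : 0 < L := mul_pos (Real.rpow_pos_of_pos (by linarith) _) (Real.log_pos (by linarith))
  have hn : Measurable (nrm t) := (hM Ω P (Y 0) (hT.traps 0) t).2.2.1
  let A : Set (ℝ≥0 → ℝ) := {x | r * L ≤ nrm t x}
  have hA : MeasurableSet A := measurableSet_le measurable_const hn
  refine cond_le hM hV hT ha t A hA _ ?_ _ ?_
  · filter_upwards [disp_eq_nrm hM hX t] with ω hω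
    apply propext
    change r * L ≤ disp X t ω ↔ r * L ≤ nrm t (fun u => X u ω)
    rw [hω]
  · have hmA : MeasurableSet {ω | (fun u => X u ω) ∈ A} := meas_path hX hA
    have hrL : 0 < r * L := mul_pos hr hL0
    have h1 : ENNReal.ofReal (r * L) * ∫⁻ ω in {ω | (fun u => X u ω) ∈ A},
        wt lam P (Y 0) t (fun u => X u ω) ∂P ≤
        ∫⁻ ω, wt lam P (Y 0) t (fun u => X u ω) *
          ENNReal.ofReal (nrm t (fun u => X u ω)) ∂P := by
      have hmw : Measurable fun ω => wt lam P (Y 0) t (fun u => X u ω) :=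
        (meas_wt hM (hT.traps 0) t).comp (meas_path hX)
      rw [← lintegral_const_mul _ hmw]
      refine le_trans (lintegral_mono_ae ?_) (setLIntegral_le_lintegral
        {ω | (fun u => X u ω) ∈ A} _)
      filter_upwards [ae_restrict_mem hmA] with ω hω
      rw [mul_comm]
      gcongr
      exact hω
    have h2 := h1.trans hrec
    have e : ENNReal.ofReal (C / r) = (ENNReal.ofReal (r * L))⁻¹ * ENNReal.ofReal (C * L) := by
      rw [← ENNReal.ofReal_inv_of_pos hrL, ← ENNReal.ofReal_mul (by positivity)]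
      congr 1
      field_simp
    rw [e, mul_assoc]
    calc ∫⁻ ω in {ω | (fun u => X u ω) ∈ A}, wt lam P (Y 0) t (fun u => X u ω) ∂P
        = (ENNReal.ofReal (r * L))⁻¹ * (ENNReal.ofReal (r * L) *
          ∫⁻ ω in {ω | (fun u => X u ω) ∈ A}, wt lam P (Y 0) t (fun u => X u ω) ∂P) := by
          rw [← mul_assoc, ENNReal.inv_mul_cancel (by
            rw [ne_eq, ENNReal.ofReal_eq_zero, not_le]; exact hrL) ENNReal.ofReal_ne_top, one_mul]
      _ ≤ _ := mul_le_mul_right h2 _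

theorem stp_zero : stp 0 (fun _ : ℝ≥0 => (0 : ℝ)) = fun _ => (0 : ℝ) := rfl

theorem cat_zero (z : ℝ≥0 → ℝ) (hz : z 0 = 0) : cat 0 (fun _ : ℝ≥0 => (0 : ℝ)) z = z := by
  funext u
  unfold cat
  by_cases hu : u ≤ 0
  · have : u = 0 := le_antisymm hu bot_le
    subst this
    simp [hz]
  · rw [if_neg hu]; simp

theorem H_bounds (hU : UStmt.{u}) {W : ℝ≥0 → Ω → ℝ} (hW : IsBM P W) (t : ℝ≥0) (ht : 0 < t)
    (z : ℝ≥0 → ℝ) (hz : Continuous z) (hz0 : z 0 = 0) :
    H P W t (fun _ => 0) ≤ H P W t z ∧ ∀ R : ℝ, 0 < R → nrm t z ≤ R →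
      H P W t z ≤ H P W t (fun _ => 0) + 2 * R := by
  obtain ⟨C, _, h⟩ := hU
  have key : ∀ R : ℝ, 0 < R → nrm t z ≤ R → H P W t (fun _ => 0) ≤ H P W t z ∧
      H P W t z ≤ H P W t (fun _ => 0) + 2 * R := by
    intro R hR hn
    have := h Ω P W hW t 0 (fun _ => 0) z R ht bot_le continuous_const rfl hz hz0 hR (by simpa)
    rw [stp_zero, cat_zero z hz0] at this
    exact ⟨this.1, this.2.1⟩
  refine ⟨(key (max (nrm t z) 1) (lt_max_of_lt_right one_pos) (le_max_left _ _)).1,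
    fun R hR hn => (key R hR hn).2⟩

/-- the ratio bound behind the lower bound on the displacement -/
theorem conf_bound (hM : TaskM.{u}) (hCf : TaskC.{u}) (hU : UStmt.{u}) (hV : VSStmt.{u, u}) :
    ∃ C : ℝ, 0 < C ∧ ∀ (a : ℝ), 0 ≤ a → TrapModel P lam X x Y → ∀ t : ℝ≥0, 0 < t →
      ∀ R' : ℝ, 0 < R' →
      (ProbabilityTheory.cond P (surv a X x Y t)) {ω | disp X t ω < R'} ≤
        ENNReal.ofReal (Real.exp (1 + C + (2 * lam + C) * (t : ℝ) ^ (1 / 3 : ℝ) -
          t / (C * R' ^ 2))) := by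
  obtain ⟨C, hC, h⟩ := hCf
  refine ⟨C, hC, fun a ha hT t ht R' hR' => ?_⟩
  have hX := hT.particle
  have hW := hT.traps 0
  have hn : Measurable (nrm t) := (hM Ω P (Y 0) (hT.traps 0) t).2.2.1
  let A : Set (ℝ≥0 → ℝ) := {x | nrm t x < R'}
  have hA : MeasurableSet A := measurableSet_lt hn measurable_const
  have htp : (0 : ℝ) < t := by exact_mod_cast ht
  refine cond_le hM hV hT ha t A hA _ ?_ _ ?_
  · filter_upwards [disp_eq_nrm hM hX t] with ω hω
    apply propext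
    change disp X t ω < R' ↔ nrm t (fun u => X u ω) < R'
    rw [hω]
  · have hmA : MeasurableSet {ω | (fun u => X u ω) ∈ A} := meas_path hX hA
    set H0 := H P (Y 0) t (fun _ => 0) with hH0
    set R : ℝ := (t : ℝ) ^ (1 / 3 : ℝ) with hR
    have hRp : 0 < R := Real.rpow_pos_of_pos htp _
    have hRt : (t : ℝ) / R ^ 2 = R := by
      have : R ^ 3 = t := by
        rw [hR, ← Real.rpow_natCast, ← Real.rpow_mul htp.le]
        norm_num
      rw [div_eq_iff (by positivity), ← this]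
      ring
    have hl0 : (0 : ℝ) ≤ lam := lam.2
    -- numerator
    have hnum : ∫⁻ ω in {ω | (fun u => X u ω) ∈ A}, wt lam P (Y 0) t (fun u => X u ω) ∂P ≤
        ENNReal.ofReal (Real.exp (-(lam * H0))) *
          ENNReal.ofReal (Real.exp (1 - t / (C * R' ^ 2))) := by
      calc ∫⁻ ω in {ω | (fun u => X u ω) ∈ A}, wt lam P (Y 0) t (fun u => X u ω) ∂P
          ≤ ∫⁻ ω in {ω | (fun u => X u ω) ∈ A}, ENNReal.ofReal (Real.exp (-(lam * H0))) ∂P := by
            apply lintegral_mono_ae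
            apply ae_restrict_of_ae
            filter_upwards [hX.cont, hX.zero] with ω hc h0
            unfold wt
            gcongr
            exact (H_bounds hU hW t ht _ hc h0).1
        _ = ENNReal.ofReal (Real.exp (-(lam * H0))) * P {ω | (fun u => X u ω) ∈ A} := by
            rw [setLIntegral_const]
        _ ≤ _ := by
            gcongr
            refine le_trans (measure_mono ?_) (h Ω P X hX t R' hR').2
            intro ω (hω : nrm t (fun u => X u ω) < R')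
            exact le_of_lt hω
    -- denominator
    have hden : ENNReal.ofReal (Real.exp (-(lam * (H0 + 2 * R)))) *
        ENNReal.ofReal (Real.exp (-(C * (1 + R)))) ≤ ZZ P lam X Y t := by
      have h1 := (h Ω P X hX t R hRp).1
      rw [hRt] at h1
      have hmB : MeasurableSet {ω | nrm t (fun u => X u ω) ≤ R} :=
        (measurableSet_le hn measurable_const).preimage (meas_path hX)
      calc ENNReal.ofReal (Real.exp (-(lam * (H0 + 2 * R)))) *
            ENNReal.ofReal (Real.exp (-(C * (1 + R))))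
          ≤ ENNReal.ofReal (Real.exp (-(lam * (H0 + 2 * R)))) *
            P {ω | nrm t (fun u => X u ω) ≤ R} := by gcongr
        _ = ∫⁻ ω in {ω | nrm t (fun u => X u ω) ≤ R},
            ENNReal.ofReal (Real.exp (-(lam * (H0 + 2 * R)))) ∂P := by
            rw [setLIntegral_const]
        _ ≤ ∫⁻ ω in {ω | nrm t (fun u => X u ω) ≤ R},
            wt lam P (Y 0) t (fun u => X u ω) ∂P := by
            apply lintegral_mono_ae
            filter_upwards [ae_restrict_mem hmB, ae_restrict_of_ae hX.cont,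
              ae_restrict_of_ae hX.zero] with ω hω hc h0
            unfold wt
            gcongr
            exact (H_bounds hU hW t ht _ hc h0).2 R hRp hω
        _ ≤ ZZ P lam X Y t := setLIntegral_le_lintegral _ _
    refine hnum.trans ?_
    refine le_trans (le_of_eq ?_) (mul_le_mul_right hden _)
    rw [← ENNReal.ofReal_mul (Real.exp_pos _).le, ← ENNReal.ofReal_mul (Real.exp_pos _).le,
      ← ENNReal.ofReal_mul (Real.exp_pos _).le, ← Real.exp_add, ← Real.exp_add, ← Real.exp_add]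
    congr 2
    ring

end

theorem tendsto_exp_bound (K B D α : ℝ) (hD : 0 < D) (hα : α < 1 / 3) (c : ℝ) (hc : 0 < c) :
    Tendsto (fun s : ℝ => Real.exp (K + B * s ^ (1 / 3 : ℝ) - s / (D * (c * s ^ α) ^ 2)))
      atTop (𝓝 0) := by
  apply Real.tendsto_exp_atBot.comp
  have h1 : Tendsto (fun s : ℝ => s ^ (1 / 3 : ℝ)) atTop atTop :=
    tendsto_rpow_atTop (by norm_num)
  have h2 : Tendsto (fun s : ℝ => s ^ (1 - 2 * α - 1 / 3 : ℝ)) atTop atTop :=
    tendsto_rpow_atTop (by linarith)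
  have hE : 0 < 1 / (D * c ^ 2) := by positivity
  have h3 : Tendsto (fun s : ℝ => B - 1 / (D * c ^ 2) * s ^ (1 - 2 * α - 1 / 3 : ℝ))
      atTop atBot := by
    have := (h2.const_mul_atTop hE)
    have := tendsto_neg_atTop_atBot.comp this
    refine (tendsto_atBot_add_const_left _ B this).congr fun s => ?_
    simp only [Function.comp]
    ring
  have h4 := h1.atTop_mul_atBot₀ h3
  have h5 := tendsto_atBot_add_const_left _ K h4
  refine h5.congr' ?_
  filter_upwards [eventually_gt_atTop 0] with s hs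
  have e1 : s ^ (1 - 2 * α - 1 / 3 : ℝ) * s ^ (1 / 3 : ℝ) = s / (s ^ α) ^ 2 := by
    rw [← Real.rpow_add hs, ← Real.rpow_natCast (s ^ α), ← Real.rpow_mul hs.le]
    have : (1 - 2 * α - 1 / 3 + 1 / 3 : ℝ) = 1 - α * (2 : ℕ) := by push_cast; ring
    rw [this, Real.rpow_sub hs, Real.rpow_one]
  have e2 : s / (D * (c * s ^ α) ^ 2) = 1 / (D * c ^ 2) * (s / (s ^ α) ^ 2) := by
    have : s ^ α ≠ 0 := (Real.rpow_pos_of_pos hs _).ne'
    field_simp
  rw [e2, ← e1]
  ring

theorem tendsto_log_bound (C α : ℝ) (hα : 1 / 3 < α) :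
    Tendsto (fun s : ℝ => C / (s ^ α / (s ^ (1 / 3 : ℝ) * Real.log s))) atTop (𝓝 0) := by
  have h := (isLittleO_log_rpow_atTop (r := α - 1 / 3) (by linarith)).tendsto_div_nhds_zero
  have h2 := h.const_mul C
  rw [mul_zero] at h2
  refine h2.congr' ?_
  filter_upwards [eventually_gt_atTop 1] with s hs
  have hs0 : 0 < s := by linarith
  rw [Real.rpow_sub hs0]
  have h1 : s ^ α ≠ 0 := (Real.rpow_pos_of_pos hs0 _).ne'
  have h2 : s ^ (1 / 3 : ℝ) ≠ 0 := (Real.rpow_pos_of_pos hs0 _).ne'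
  have h3 : Real.log s ≠ 0 := (Real.log_pos hs).ne'
  field_simp

/-- the critical exponent of the problem -/
noncomputable def critExp {Ω : Type u} [MeasurableSpace Ω] (P : Measure Ω) (a : ℝ)
    (X : ℝ≥0 → Ω → ℝ) (x : ℕ → Ω → ℝ) (Y : ℕ → ℝ≥0 → Ω → ℝ) : ℝ :=
  sInf {α : ℝ | 0 < α ∧ ∃ c : ℝ, 0 < c ∧ Tendsto (fun t : ℝ≥0 =>
    (ProbabilityTheory.cond P (surv a X x Y t)) {ω | disp X t ω < c * (t : ℝ) ^ α}) atTop (𝓝 1)}

/-- the final statement, for `{T > t}` -/
def FinalStmtS : Prop :=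
  ∀ (Ω : Type u) [MeasurableSpace Ω] (P : Measure Ω) [IsProbabilityMeasure P] (lam : ℝ≥0)
    (X : ℝ≥0 → Ω → ℝ) (x : ℕ → Ω → ℝ) (Y : ℕ → ℝ≥0 → Ω → ℝ) (a : ℝ),
    0 < lam → 0 < a → TrapModel P lam X x Y →
    (∀ t : ℝ≥0, 0 < P (surv a X x Y t)) ∧
    (∃ C : ℝ, 0 < C ∧ ∀ᶠ t : ℝ≥0 in atTop, ∀ r : ℝ, 0 < r →
      (ProbabilityTheory.cond P (surv a X x Y t))
        {ω | r * ((t : ℝ) ^ (1 / 3 : ℝ) * Real.log t) ≤ disp X t ω} ≤ ENNReal.ofReal (C / r)) ∧
    (∀ α : ℝ, α < 1 / 3 → ∀ c : ℝ, Tendsto (fun t : ℝ≥0 =>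
      (ProbabilityTheory.cond P (surv a X x Y t)) {ω | disp X t ω < c * (t : ℝ) ^ α})
        atTop (𝓝 0)) ∧
    critExp P a X x Y = 1 / 3

theorem finS (hM : TaskM.{u}) (hCf : TaskC.{u}) (hU : UStmt.{u}) (hR : RecStmt.{u, u})
    (hV' : VStmt.{u, u}) : FinalStmtS.{u} := by
  have hV := vs_of_v hM hV'
  intro Ω _ P _ lam X x Y a hl ha hT
  obtain ⟨C1, hC1, hmk⟩ := markov (P := P) (lam := lam) (X := X) (x := x) (Y := Y) hM hR hV hl
  obtain ⟨C2, hC2, hcf⟩ := conf_bound (P := P) (lam := lam) (X := X) (x := x) (Y := Y)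
    hM hCf hU hV
  have hpos : ∀ t : ℝ≥0, 0 < P (surv a X x Y t) := fun t => alive_pos hM hV hT ha.le t
  have hcoe : Tendsto (fun t : ℝ≥0 => (t : ℝ)) atTop atTop := NNReal.tendsto_coe_atTop.2 tendsto_id
  have hlow : ∀ α : ℝ, α < 1 / 3 → ∀ c : ℝ, Tendsto (fun t : ℝ≥0 =>
      (ProbabilityTheory.cond P (surv a X x Y t)) {ω | disp X t ω < c * (t : ℝ) ^ α})
        atTop (𝓝 0) := by
    intro α hα c
    have h0 := (tendsto_exp_bound (1 + C2) (2 * lam + C2) C2 α hC2 hα (|c| + 1)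
      (by positivity)).comp hcoe
    have h1 := ENNReal.tendsto_ofReal h0
    rw [ENNReal.ofReal_zero] at h1
    refine tendsto_of_tendsto_of_tendsto_of_le_of_le' tendsto_const_nhds h1
      (Eventually.of_forall fun _ => bot_le) ?_
    filter_upwards [eventually_gt_atTop 0] with t ht
    have htp : (0 : ℝ) < t := by exact_mod_cast ht
    have hta : 0 < (t : ℝ) ^ α := Real.rpow_pos_of_pos htp _
    refine le_trans (measure_mono ?_) (hcf a ha.le hT t ht ((|c| + 1) * (t : ℝ) ^ α)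
      (by positivity))
    intro ω (hω : disp X t ω < c * (t : ℝ) ^ α)
    refine lt_of_lt_of_le hω ?_
    gcongr
    linarith [le_abs_self c]
  refine ⟨hpos, ⟨C1, hC1, ?_⟩, hlow, ?_⟩
  · filter_upwards [eventually_ge_atTop 2] with t ht r hr
    exact hmk a ha.le hT t ht r hr
  · have hup : ∀ α : ℝ, 1 / 3 < α → Tendsto (fun t : ℝ≥0 =>
      (ProbabilityTheory.cond P (surv a X x Y t)) {ω | disp X t ω < 1 * (t : ℝ) ^ α})
        atTop (𝓝 1) := by
      intro α hα
      have h0 := ENNReal.tendsto_ofReal ((tendsto_log_bound C1 α hα).comp hcoe)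
      rw [ENNReal.ofReal_zero] at h0
      have h1 : Tendsto (fun t : ℝ≥0 => (1 : ℝ≥0∞) - ENNReal.ofReal
          (C1 / ((t : ℝ) ^ α / ((t : ℝ) ^ (1 / 3 : ℝ) * Real.log t)))) atTop (𝓝 1) := by
        have := ENNReal.Tendsto.sub (tendsto_const_nhds (x := (1 : ℝ≥0∞))) h0
          (Or.inl ENNReal.one_ne_top)
        simpa using this
      have hprob : ∀ t : ℝ≥0, IsProbabilityMeasure
          (ProbabilityTheory.cond P (surv a X x Y t)) := fun t =>
        cond_isProbabilityMeasure (hpos t).ne'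
      refine tendsto_of_tendsto_of_tendsto_of_le_of_le' h1 tendsto_const_nhds ?_
        (Eventually.of_forall fun t => by have := hprob t; exact prob_le_one)
      filter_upwards [eventually_ge_atTop 2] with t ht
      have := hprob t
      have ht2 : (2 : ℝ) ≤ (t : ℝ) := by exact_mod_cast ht
      have hL0 : 0 < (t : ℝ) ^ (1 / 3 : ℝ) * Real.log t :=
        mul_pos (Real.rpow_pos_of_pos (by linarith) _) (Real.log_pos (by linarith))
      have hta : 0 < (t : ℝ) ^ α := Real.rpow_pos_of_pos (by linarith) _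
      have hm := hmk a ha.le hT t ht ((t : ℝ) ^ α / ((t : ℝ) ^ (1 / 3 : ℝ) * Real.log t))
        (by positivity)
      rw [div_mul_cancel₀ _ hL0.ne'] at hm
      set μ := ProbabilityTheory.cond P (surv a X x Y t)
      have hu : (1 : ℝ≥0∞) ≤ μ {ω | disp X t ω < 1 * (t : ℝ) ^ α} +
          μ {ω | (t : ℝ) ^ α ≤ disp X t ω} := by
        rw [← measure_univ (μ := μ)]
        refine le_trans (measure_mono ?_) (measure_union_le _ _)
        intro ω _
        rcases lt_or_ge (disp X t ω) ((t : ℝ) ^ α) with h | h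
        · exact Or.inl (by simpa using h)
        · exact Or.inr h
      rw [tsub_le_iff_right]
      exact hu.trans (by gcongr)
    unfold critExp
    apply csInf_eq_of_forall_ge_of_forall_gt_exists_lt
    · exact ⟨1, one_pos, 1, one_pos, hup 1 (by norm_num)⟩
    · rintro α ⟨_, c, _, hα⟩
      by_contra hlt
      rw [not_le] at hlt
      exact zero_ne_one (tendsto_nhds_unique (hlow α hlt c) hα)
    · intro w hw
      exact ⟨(1 / 3 + w) / 2, ⟨by linarith, 1, one_pos, hup _ (by linarith)⟩, by linarith⟩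

end Pool.Agent.H143R3.BT.FinS
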