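import Mathlib

/-!
# Brownian motion surviving among moving traps in dimension one (MP_b41181_pr):
definitions and task statements
-/

namespace Pool.Agent.H143R3.BT

open MeasureTheory ProbabilityTheory Filter Topology
open scoped ENNReal NNReal

universe u v

/-! ## The model -/

/-- `X` is a standard Brownian motion on `ℝ` started at `0`. -/
structure IsBM {Ω : Type u} [MeasurableSpace Ω] (P : Measure Ω) (X : ℝ≥0 → Ω → ℝ) : Prop where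
  meas : ∀ t, Measurable (X t)
  zero : ∀ᵐ ω ∂P, X 0 ω = 0
  cont : ∀ᵐ ω ∂P, Continuous fun t => X t ω
  indep : HasIndepIncrements X P
  law : ∀ s t, s ≤ t → P.map (fun ω => X t ω - X s ω) = gaussianReal 0 (t - s)

/-- The number of points `x i ω` in the set `A`. -/
noncomputable def count {Ω : Type u} (x : ℕ → Ω → ℝ) (A : Set ℝ) (ω : Ω) : ℝ≥0∞ :=
  ∑' i, A.indicator (fun _ => (1 : ℝ≥0∞)) (x i ω)

/-- The random points `x 0, x 1, …` enumerate a Poisson point process on `ℝ` with intensity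
`lam`. -/
structure IsPPP {Ω : Type u} [MeasurableSpace Ω] (P : Measure Ω) (lam : ℝ≥0)
    (x : ℕ → Ω → ℝ) : Prop where
  measurable : ∀ i, Measurable (x i)
  law : ∀ A, MeasurableSet A → volume A ≠ ∞ → P.map (count x A) =
    (poissonMeasure (lam * (volume A).toNNReal)).map (fun n : ℕ => (n : ℝ≥0∞))
  indep : ∀ (ι : Type) [Finite ι] (A : ι → Set ℝ), (∀ i, MeasurableSet (A i)) →
    (∀ i, volume (A i) ≠ ∞) → Pairwise (Function.onFun Disjoint A) →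
    iIndepFun (fun i => count x (A i)) P

/-- The particle `X`, the initial trap positions `x i` and the motions `Y i` of the traps. -/
structure TrapModel {Ω : Type u} [MeasurableSpace Ω] (P : Measure Ω) (lam : ℝ≥0)
    (X : ℝ≥0 → Ω → ℝ) (x : ℕ → Ω → ℝ) (Y : ℕ → ℝ≥0 → Ω → ℝ) : Prop where
  particle : IsBM P X
  points : IsPPP P lam x
  traps : ∀ i, IsBM P (Y i)
  indep_traps : iIndepFun (fun (i : ℕ) (ω : Ω) (t : ℝ≥0) => Y i t ω) P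
  indep_points_traps : IndepFun (fun (ω : Ω) (i : ℕ) => x i ω)
    (fun (ω : Ω) (i : ℕ) (t : ℝ≥0) => Y i t ω) P
  indep_particle : IndepFun (fun (ω : Ω) (t : ℝ≥0) => X t ω)
    (fun (ω : Ω) => ((fun (i : ℕ) => x i ω), (fun (i : ℕ) (t : ℝ≥0) => Y i t ω))) P

/-- the trap field `K_s` -/
def trapField {Ω : Type u} (a : ℝ) (x : ℕ → Ω → ℝ) (Y : ℕ → ℝ≥0 → Ω → ℝ) (s : ℝ≥0) (ω : Ω) :
    Set ℝ := ⋃ i, Metric.closedBall (x i ω + Y i s ω) a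

/-- the range `R_s` of the particle -/
def range {Ω : Type u} (X : ℝ≥0 → Ω → ℝ) (s : ℝ≥0) (ω : Ω) : Set ℝ := (fun u => X u ω) '' Set.Iic s

/-- survival up to time `t`: no contact of `R_s` and `K_s` for `s ≤ t` -/
def alive {Ω : Type u} (a : ℝ) (X : ℝ≥0 → Ω → ℝ) (x : ℕ → Ω → ℝ) (Y : ℕ → ℝ≥0 → Ω → ℝ)
    (t : ℝ≥0) : Set Ω := {ω | ∀ s ≤ t, range X s ω ∩ trapField a x Y s ω = ∅}

/-- the maximal displacement -/
noncomputable def disp {Ω : Type u} (X : ℝ≥0 → Ω → ℝ) (t : ℝ≥0) (ω : Ω) : ℝ :=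
  max (sSup (range X t ω)) (-(sInf (range X t ω)))

/-! ## Path functionals (countable suprema) -/

/-- a countable dense set of times in `[0, s]`, containing `0` and `s` -/
noncomputable def tq (s : ℝ≥0) (p : ℕ × ℕ) : ℝ≥0 := s * min ((p.1 : ℝ≥0) / (p.2 + 1)) 1

/-- supremum of the path `x` over `[0, s]` (countable version) -/
noncomputable def sp (s : ℝ≥0) (x : ℝ≥0 → ℝ) : ℝ := ⨆ p : ℕ × ℕ, x (tq s p)

/-- `max_{u ≤ s} |x u|` -/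
noncomputable def nrm (s : ℝ≥0) (x : ℝ≥0 → ℝ) : ℝ := max (sp s x) (sp s fun u => -x u)

/-- `E sup_{s ≤ t} (f s + W s)` -/
noncomputable def U {Ω' : Type v} [MeasurableSpace Ω'] (P' : Measure Ω') (W : ℝ≥0 → Ω' → ℝ)
    (t : ℝ≥0) (f : ℝ≥0 → ℝ) : ℝ := ∫ ω, sp t (fun s => f s + W s ω) ∂P'

/-- the cost functional: `P(survival | X) = exp (-lam (2 a + H t X))` -/
noncomputable def H {Ω' : Type v} [MeasurableSpace Ω'] (P' : Measure Ω') (W : ℝ≥0 → Ω' → ℝ)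
    (t : ℝ≥0) (x : ℝ≥0 → ℝ) : ℝ :=
  U P' W t (fun s => sp s x) + U P' W t (fun s => sp s fun u => -x u)

/-- the path stopped at time `s` -/
def stp (s : ℝ≥0) (x : ℝ≥0 → ℝ) : ℝ≥0 → ℝ := fun u => x (min u s)

/-- the increments after time `s` -/
def shf (s : ℝ≥0) (x : ℝ≥0 → ℝ) : ℝ≥0 → ℝ := fun u => x (s + u) - x s

/-- the path `x` up to time `s`, continued by the increments `z` -/
noncomputable def cat (s : ℝ≥0) (x z : ℝ≥0 → ℝ) : ℝ≥0 → ℝ :=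
  fun u => if u ≤ s then x u else x s + z (u - s)

/-- the weight of a path -/
noncomputable def wt {Ω' : Type v} [MeasurableSpace Ω'] (lam : ℝ≥0) (P' : Measure Ω')
    (W : ℝ≥0 → Ω' → ℝ) (t : ℝ≥0) (x : ℝ≥0 → ℝ) : ℝ≥0∞ :=
  ENNReal.ofReal (Real.exp (-(lam * H P' W t x)))

/-! ## Tasks -/

/-- measurability and basic facts -/
def TaskM : Prop :=
  ∀ (Ω' : Type v) [MeasurableSpace Ω'] (P' : Measure Ω') [IsProbabilityMeasure P']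
    (W : ℝ≥0 → Ω' → ℝ), IsBM P' W → ∀ t : ℝ≥0,
    Measurable (H P' W t) ∧ Measurable (sp t) ∧ Measurable (nrm t) ∧
    Integrable (fun ω => sp t (fun s => W s ω)) P' ∧
    (∀ x : ℝ≥0 → ℝ, Continuous x → IsLUB (x '' Set.Iic t) (sp t x))

/-- past and future are independent -/
def TaskI : Prop :=
  ∀ (Ω : Type u) [MeasurableSpace Ω] (P : Measure Ω) [IsProbabilityMeasure P] (X : ℝ≥0 → Ω → ℝ),
    IsBM P X → ∀ s : ℝ≥0,
    IsBM P (fun u ω => shf s (fun t => X t ω) u) ∧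
    ∀ Φ : (ℝ≥0 → ℝ) × (ℝ≥0 → ℝ) → ℝ≥0∞, Measurable Φ →
      ∫⁻ ω, Φ (stp s (fun t => X t ω), shf s (fun t => X t ω)) ∂P =
        ∫⁻ ω₁, ∫⁻ ω₂, Φ (stp s (fun t => X t ω₁), shf s (fun t => X t ω₂)) ∂P ∂P

/-- lower bound on the law of the maximum -/
def TaskR1 : Prop :=
  ∃ c : ℝ, 0 < c ∧ ∀ (Ω' : Type v) [MeasurableSpace Ω'] (P' : Measure Ω')
    [IsProbabilityMeasure P'] (W : ℝ≥0 → Ω' → ℝ), IsBM P' W → ∀ s : ℝ≥0, 0 < s → ∀ r : ℝ, 0 ≤ r →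
      ENNReal.ofReal (c * min 1 (r / √(s : ℝ))) ≤ P' {ω | sp s (fun u => W u ω) ≤ r}

/-- upper bound on the law of the maximum -/
def TaskR2 : Prop :=
  ∃ C : ℝ, 0 < C ∧ ∀ (Ω' : Type v) [MeasurableSpace Ω'] (P' : Measure Ω')
    [IsProbabilityMeasure P'] (W : ℝ≥0 → Ω' → ℝ), IsBM P' W → ∀ s : ℝ≥0, 0 < s → ∀ r : ℝ, 0 < r →
      P' {ω | sp s (fun u => W u ω) ≤ r} ≤ ENNReal.ofReal (C * (r / √(s : ℝ)))

/-- confinement -/
def TaskC : Prop :=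
  ∃ C : ℝ, 0 < C ∧ ∀ (Ω : Type u) [MeasurableSpace Ω] (P : Measure Ω)
    [IsProbabilityMeasure P] (X : ℝ≥0 → Ω → ℝ), IsBM P X → ∀ (t : ℝ≥0) (R : ℝ), 0 < R →
      ENNReal.ofReal (Real.exp (-(C * (1 + t / R ^ 2)))) ≤ P {ω | nrm t (fun u => X u ω) ≤ R} ∧
      P {ω | nrm t (fun u => X u ω) ≤ R} ≤ ENNReal.ofReal (Real.exp (1 - t / (C * R ^ 2)))

/-- cost of raising the maximal displacement by `D` -/
def LStmt : Prop :=
  ∃ c : ℝ, 0 < c ∧ ∀ (Ω' : Type v) [MeasurableSpace Ω'] (P' : Measure Ω')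
    [IsProbabilityMeasure P'] (W : ℝ≥0 → Ω' → ℝ), IsBM P' W →
    ∀ (t s s' : ℝ≥0) (x : ℝ≥0 → ℝ) (D : ℝ), 0 < t → s ≤ s' → s' ≤ t → Continuous x → x 0 = 0 →
      0 ≤ D → nrm s x + D ≤ nrm s' x →
      H P' W t (stp s x) + c * (D * min 1 ((D + √((t : ℝ) - s')) / √(t : ℝ))) ≤ H P' W t x

def TaskLow : Prop := TaskM.{v} → TaskI.{v} → TaskR1.{v} → LStmt.{v}

/-- cost of a continuation that stays within distance `R` -/
def UStmt : Prop :=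
  ∃ C : ℝ, 0 < C ∧ ∀ (Ω' : Type v) [MeasurableSpace Ω'] (P' : Measure Ω')
    [IsProbabilityMeasure P'] (W : ℝ≥0 → Ω' → ℝ), IsBM P' W →
    ∀ (t s : ℝ≥0) (x z : ℝ≥0 → ℝ) (R : ℝ), 0 < t → s ≤ t → Continuous x → x 0 = 0 →
      Continuous z → z 0 = 0 → 0 < R → nrm (t - s) z ≤ R →
      H P' W t (stp s x) ≤ H P' W t (cat s x z) ∧
      H P' W t (cat s x z) ≤ H P' W t (stp s x) + 2 * R ∧
      (t / 2 ≤ s → H P' W t (cat s x z) ≤ H P' W t (stp s x) +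
        C * (R * (R + nrm s x + √((t : ℝ) - s)) / √(t : ℝ)))

def TaskUp : Prop := TaskM.{v} → TaskI.{v} → TaskR2.{v} → UStmt.{v}

/-- Gibbs variational inequality -/
def TaskGibbs : Prop :=
  ∀ (Ω : Type u) [MeasurableSpace Ω] (P : Measure Ω) [IsProbabilityMeasure P]
    (I : Ω → ℝ) (B : ℝ), Measurable I → (∀ᵐ ω ∂P, 0 ≤ I ω) → 0 ≤ B →
    ENNReal.ofReal (Real.exp (-B)) ≤ ∫⁻ ω, ENNReal.ofReal (Real.exp (-(I ω))) ∂P →
    ∫⁻ ω, ENNReal.ofReal (Real.exp (-(I ω))) * ENNReal.ofReal (I ω) ∂P ≤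
      ENNReal.ofReal B * ∫⁻ ω, ENNReal.ofReal (Real.exp (-(I ω))) ∂P

/-- one step -/
def StepStmt : Prop :=
  ∀ lam : ℝ≥0, 0 < lam → ∃ C : ℝ, 0 < C ∧
    ∀ (Ω : Type u) [MeasurableSpace Ω] (P : Measure Ω) [IsProbabilityMeasure P]
      (X : ℝ≥0 → Ω → ℝ) (Ω' : Type v) [MeasurableSpace Ω'] (P' : Measure Ω')
      [IsProbabilityMeasure P'] (W : ℝ≥0 → Ω' → ℝ), IsBM P X → IsBM P' W →
    ∀ (t s s' : ℝ≥0) (R : ℝ), 1 ≤ t → s ≤ s' → s' ≤ t → (s = 0 ∨ t / 2 ≤ s) → 0 < R →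
      ∫⁻ ω, wt lam P' W t (fun u => X u ω) * ENNReal.ofReal
        ((nrm s' (fun u => X u ω) - nrm s (fun u => X u ω)) *
          min 1 ((nrm s' (fun u => X u ω) - nrm s (fun u => X u ω) + √((t : ℝ) - s')) /
            √(t : ℝ))) ∂P ≤
      ∫⁻ ω, wt lam P' W t (fun u => X u ω) * ENNReal.ofReal
        (C * (1 + ((t : ℝ) - s) / R ^ 2 +
          R * (R + nrm s (fun u => X u ω) + √((t : ℝ) - s)) / √(t : ℝ))) ∂P

def TaskStep : Prop :=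
  TaskM.{v} → TaskM.{u} → TaskI.{u} → TaskC.{u} → LStmt.{v} → UStmt.{v} → TaskGibbs.{u} →
    StepStmt.{u, v}

/-- the expected maximal displacement under the weight -/
def RecStmt : Prop :=
  ∀ lam : ℝ≥0, 0 < lam → ∃ C : ℝ, 0 < C ∧
    ∀ (Ω : Type u) [MeasurableSpace Ω] (P : Measure Ω) [IsProbabilityMeasure P]
      (X : ℝ≥0 → Ω → ℝ) (Ω' : Type v) [MeasurableSpace Ω'] (P' : Measure Ω')
      [IsProbabilityMeasure P'] (W : ℝ≥0 → Ω' → ℝ), IsBM P X → IsBM P' W →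
    ∀ t : ℝ≥0, 2 ≤ t →
      ∫⁻ ω, wt lam P' W t (fun u => X u ω) * ENNReal.ofReal (nrm t (fun u => X u ω)) ∂P ≤
        ENNReal.ofReal (C * ((t : ℝ) ^ (1 / 3 : ℝ) * Real.log t)) *
          ∫⁻ ω, wt lam P' W t (fun u => X u ω) ∂P

def TaskRec : Prop := TaskM.{u} → TaskM.{v} → StepStmt.{u, v} → RecStmt.{u, v}

/-- Laplace functional of the Poisson process -/
def TaskV1 : Prop :=
  ∀ (Ω : Type u) [MeasurableSpace Ω] (P : Measure Ω) [IsProbabilityMeasure P] (lam : ℝ≥0)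
    (x : ℕ → Ω → ℝ), IsPPP P lam x → ∀ p : ℝ → ℝ≥0∞, Measurable p → (∀ z, p z ≤ 1) →
      ∫⁻ z, p z ≠ ∞ →
      ∫⁻ ω, ⨅ m : ℕ, ∏ i ∈ Finset.range m, (1 - p (x i ω)) ∂P =
        ENNReal.ofReal (Real.exp (-(lam * (∫⁻ z, p z).toReal)))

/-- void probabilities of the marked process -/
def V2Stmt : Prop :=
  ∀ (Ω : Type u) [MeasurableSpace Ω] (P : Measure Ω) [IsProbabilityMeasure P] (lam : ℝ≥0)
    (X : ℝ≥0 → Ω → ℝ) (x : ℕ → Ω → ℝ) (Y : ℕ → ℝ≥0 → Ω → ℝ)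
    (Ω' : Type v) [MeasurableSpace Ω'] (P' : Measure Ω') [IsProbabilityMeasure P']
    (W : ℝ≥0 → Ω' → ℝ), TrapModel P lam X x Y → IsBM P' W →
    ∀ B : Set ((ℝ≥0 → ℝ) × ℝ × (ℝ≥0 → ℝ)), MeasurableSet B →
    (∀ᵐ ω ∂P, ∫⁻ z : ℝ, P' {ω' | ((fun u => X u ω), z, (fun u => W u ω')) ∈ B} ≠ ∞) →
    ∀ A : Set (ℝ≥0 → ℝ), MeasurableSet A →
      P ({ω | (fun u => X u ω) ∈ A} ∩
        {ω | ∀ i, ((fun u => X u ω), x i ω, (fun u => Y i u ω)) ∉ B}) =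
      ∫⁻ ω in {ω | (fun u => X u ω) ∈ A}, ENNReal.ofReal (Real.exp (-(lam *
        (∫⁻ z : ℝ, P' {ω' | ((fun u => X u ω), z, (fun u => W u ω')) ∈ B}).toReal))) ∂P

def TaskV2 : Prop := TaskV1.{u} → V2Stmt.{u, v}

/-- survival probability given the path -/
def VStmt : Prop :=
  ∀ (Ω : Type u) [MeasurableSpace Ω] (P : Measure Ω) [IsProbabilityMeasure P] (lam : ℝ≥0)
    (X : ℝ≥0 → Ω → ℝ) (x : ℕ → Ω → ℝ) (Y : ℕ → ℝ≥0 → Ω → ℝ)
    (Ω' : Type v) [MeasurableSpace Ω'] (P' : Measure Ω') [IsProbabilityMeasure P']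
    (W : ℝ≥0 → Ω' → ℝ) (a : ℝ), TrapModel P lam X x Y → IsBM P' W → 0 ≤ a →
    ∀ (t : ℝ≥0) (A : Set (ℝ≥0 → ℝ)), MeasurableSet A →
      P ({ω | (fun u => X u ω) ∈ A} ∩ alive a X x Y t) =
        ENNReal.ofReal (Real.exp (-(lam * (2 * a)))) *
          ∫⁻ ω in {ω | (fun u => X u ω) ∈ A}, wt lam P' W t (fun u => X u ω) ∂P

def TaskV3 : Prop := TaskM.{u} → TaskM.{v} → V2Stmt.{u, v} → VStmt.{u, v}

/-! ## The final statement -/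

/-- the critical exponent of the problem -/
noncomputable def alphaStar {Ω : Type u} [MeasurableSpace Ω] (P : Measure Ω) (a : ℝ)
    (X : ℝ≥0 → Ω → ℝ) (x : ℕ → Ω → ℝ) (Y : ℕ → ℝ≥0 → Ω → ℝ) : ℝ :=
  sInf {α : ℝ | 0 < α ∧ ∃ c : ℝ, 0 < c ∧ Tendsto (fun t : ℝ≥0 =>
    (ProbabilityTheory.cond P (alive a X x Y t)) {ω | disp X t ω < c * (t : ℝ) ^ α}) atTop (𝓝 1)}

def FinalStmt : Prop :=
  ∀ (Ω : Type u) [MeasurableSpace Ω] (P : Measure Ω) [IsProbabilityMeasure P] (lam : ℝ≥0)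
    (X : ℝ≥0 → Ω → ℝ) (x : ℕ → Ω → ℝ) (Y : ℕ → ℝ≥0 → Ω → ℝ) (a : ℝ),
    0 < lam → 0 < a → TrapModel P lam X x Y →
    (∀ t : ℝ≥0, 0 < P (alive a X x Y t)) ∧
    (∃ C : ℝ, 0 < C ∧ ∀ᶠ t : ℝ≥0 in atTop, ∀ r : ℝ, 0 < r →
      (ProbabilityTheory.cond P (alive a X x Y t))
        {ω | r * ((t : ℝ) ^ (1 / 3 : ℝ) * Real.log t) ≤ disp X t ω} ≤ ENNReal.ofReal (C / r)) ∧
    (∀ α : ℝ, α < 1 / 3 → ∀ c : ℝ, Tendsto (fun t : ℝ≥0 =>
      (ProbabilityTheory.cond P (alive a X x Y t)) {ω | disp X t ω < c * (t : ℝ) ^ α})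
        atTop (𝓝 0)) ∧
    alphaStar P a X x Y = 1 / 3

def TaskFin : Prop :=
  TaskM.{u} → TaskC.{u} → UStmt.{u} → RecStmt.{u, u} → VStmt.{u, u} → FinalStmt.{u}

theorem final (m : TaskM.{u}) (i : TaskI.{u}) (r1 : TaskR1.{u}) (r2 : TaskR2.{u})
    (c : TaskC.{u}) (low : TaskLow.{u}) (up : TaskUp.{u}) (g : TaskGibbs.{u})
    (st : TaskStep.{u, u}) (rec : TaskRec.{u, u}) (v1 : TaskV1.{u}) (v2 : TaskV2.{u, u})
    (v3 : TaskV3.{u, u}) (fin : TaskFin.{u}) : FinalStmt.{u} := by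
  have l := low m i r1
  have uu := up m i r2
  have s := st m m i c l uu g
  exact fin m c uu (rec m m s) (v3 m m (v2 v1))

end Pool.Agent.H143R3.BT
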