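import Pool.Agent.H143R3.BT.Stmts

/-!
# The survival event `{T > t}` and the event `alive t`
-/

namespace Pool.Agent.H143R3.BT

open MeasureTheory ProbabilityTheory Filter Topology
open scoped ENNReal NNReal

universe u v

/-- the trapping time `T = inf {s ≥ 0 : R_s ∩ K_s ≠ ∅}` (`∞` if there is no such `s`) -/
noncomputable def trapTime {Ω : Type u} (a : ℝ) (X : ℝ≥0 → Ω → ℝ) (x : ℕ → Ω → ℝ)
    (Y : ℕ → ℝ≥0 → Ω → ℝ) (ω : Ω) : ℝ≥0∞ :=
  ⨅ (s : ℝ≥0) (_ : (range X s ω ∩ trapField a x Y s ω).Nonempty), (s : ℝ≥0∞)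

/-- survival up to time `t` -/
def surv {Ω : Type u} (a : ℝ) (X : ℝ≥0 → Ω → ℝ) (x : ℕ → Ω → ℝ) (Y : ℕ → ℝ≥0 → Ω → ℝ)
    (t : ℝ≥0) : Set Ω := {ω | (t : ℝ≥0∞) < trapTime a X x Y ω}

theorem surv_subset_alive {Ω : Type u} (a : ℝ) (X : ℝ≥0 → Ω → ℝ) (x : ℕ → Ω → ℝ)
    (Y : ℕ → ℝ≥0 → Ω → ℝ) (t : ℝ≥0) : surv a X x Y t ⊆ alive a X x Y t := by
  intro ω hω s hs
  by_contra h
  rw [← ne_eq, ← Set.nonempty_iff_ne_empty] at h
  have : trapTime a X x Y ω ≤ (s : ℝ≥0∞) := iInf₂_le s h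
  have h2 : (t : ℝ≥0∞) < s := lt_of_lt_of_le hω this
  rw [ENNReal.coe_lt_coe] at h2
  exact absurd hs (not_le.2 h2)

theorem alive_subset_surv {Ω : Type u} (a : ℝ) (X : ℝ≥0 → Ω → ℝ) (x : ℕ → Ω → ℝ)
    (Y : ℕ → ℝ≥0 → Ω → ℝ) (t t' : ℝ≥0) (h : t < t') : alive a X x Y t' ⊆ surv a X x Y t := by
  intro ω hω
  have h1 : (t' : ℝ≥0∞) ≤ trapTime a X x Y ω := by
    refine le_iInf₂ fun s hs => ?_
    rw [ENNReal.coe_le_coe]
    by_contra hlt
    rw [not_le] at hlt
    exact (Set.nonempty_iff_ne_empty.1 hs) (hω s hlt.le)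
  exact lt_of_lt_of_le (ENNReal.coe_lt_coe.2 h) h1

/-- the running supremum is continuous in time -/
theorem continuous_sp (hlub : ∀ (t : ℝ≥0) (x : ℝ≥0 → ℝ), Continuous x →
    IsLUB (x '' Set.Iic t) (sp t x)) (g : ℝ≥0 → ℝ) (hg : Continuous g) :
    Continuous fun s => sp s g := by
  have hK : IsCompact (Set.Iic (1 : ℝ≥0)) := by
    rw [← Set.Icc_bot]; exact isCompact_Icc
  have hf : Continuous (Function.uncurry fun (s u : ℝ≥0) => g (s * u)) := by
    unfold Function.uncurry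
    fun_prop
  have := hK.continuous_sSup (f := fun (s u : ℝ≥0) => g (s * u)) hf
  convert this using 2 with s
  have hne : (g '' Set.Iic s).Nonempty := ⟨_, ⟨0, by simp, rfl⟩⟩
  rw [← (hlub s g hg).csSup_eq hne]
  congr 1
  ext y
  simp only [Set.mem_image, Set.mem_Iic]
  constructor
  · rintro ⟨u, hu, rfl⟩
    by_cases hs : s = 0
    · subst hs
      have : u = 0 := le_antisymm hu bot_le
      subst this
      exact ⟨0, bot_le, by simp⟩
    · exact ⟨u / s, div_le_one_of_le₀ hu bot_le, by rw [mul_div_cancel₀ _ hs]⟩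
  · rintro ⟨u, hu, rfl⟩
    exact ⟨s * u, mul_le_of_le_one_right bot_le hu, rfl⟩

section
variable {Ω' : Type v} [MeasurableSpace Ω'] {P' : Measure Ω'} [IsProbabilityMeasure P']
  {W : ℝ≥0 → Ω' → ℝ}

theorem tendsto_U (hM : TaskM.{v}) (hW : IsBM P' W) (t : ℝ≥0) (f : ℝ≥0 → ℝ)
    (hf : Continuous f) (δ : ℕ → ℝ≥0) (hδ : Tendsto δ atTop (𝓝 0)) (hδ1 : ∀ n, δ n ≤ 1) :
    Tendsto (fun n => U P' W (t + δ n) f) atTop (𝓝 (U P' W t f)) := by
  have hlub : ∀ (t : ℝ≥0) (x : ℝ≥0 → ℝ), Continuous x → IsLUB (x '' Set.Iic t) (sp t x) :=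
    fun t => (hM Ω' P' W hW t).2.2.2.2
  have hms : ∀ t : ℝ≥0, Measurable (sp t) := fun t => (hM Ω' P' W hW t).2.1
  have hint := (hM Ω' P' W hW (t + 1)).2.2.2.1
  unfold U
  refine tendsto_integral_of_dominated_convergence
    (fun ω => |f 0| + |sp (t + 1) f| + |sp (t + 1) (fun s => W s ω)|) ?_ ?_ ?_ ?_
  · intro n
    refine ((hms (t + δ n)).comp (measurable_pi_lambda _ fun s => ?_)).aestronglyMeasurable
    exact (hW.meas s).const_add _
  · exact (integrable_const _).add hint.abs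
  · intro n
    filter_upwards [hW.cont, hW.zero] with ω hc h0
    have hg : Continuous fun s => f s + W s ω := hf.add hc
    have h1 := hlub (t + δ n) _ hg
    have h2 := hlub (t + 1) _ hf
    have h3 := hlub (t + 1) _ hc
    have hle : sp (t + δ n) (fun s => f s + W s ω) ≤ sp (t + 1) f + sp (t + 1) fun s => W s ω := by
      refine h1.2 ?_
      rintro _ ⟨s, hs, rfl⟩
      have hs' : s ≤ t + 1 := le_trans hs (by gcongr; exact hδ1 n)
      exact add_le_add (h2.1 ⟨s, hs', rfl⟩) (h3.1 ⟨s, hs', rfl⟩)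
    have hge : f 0 ≤ sp (t + δ n) (fun s => f s + W s ω) := by
      have := h1.1 ⟨0, Set.mem_Iic.2 bot_le, rfl⟩
      simpa [h0] using this
    rw [Real.norm_eq_abs, abs_le]
    constructor
    · have := neg_abs_le (f 0)
      have a1 := abs_nonneg (sp (t + 1) f)
      have a2 := abs_nonneg (sp (t + 1) fun s => W s ω)
      linarith
    · have a1 := le_abs_self (sp (t + 1) f)
      have a2 := le_abs_self (sp (t + 1) fun s => W s ω)
      have a3 := abs_nonneg (f 0)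
      linarith
  · filter_upwards [hW.cont] with ω hc
    have hg : Continuous fun s => f s + W s ω := hf.add hc
    have h := (continuous_sp hlub _ hg).tendsto t
    refine h.comp ?_
    have : Tendsto (fun n => t + δ n) atTop (𝓝 (t + 0)) := tendsto_const_nhds.add hδ
    simpa using this

theorem tendsto_H (hM : TaskM.{v}) (hW : IsBM P' W) (t : ℝ≥0) (z : ℝ≥0 → ℝ)
    (hz : Continuous z) (δ : ℕ → ℝ≥0) (hδ : Tendsto δ atTop (𝓝 0)) (hδ1 : ∀ n, δ n ≤ 1) :
    Tendsto (fun n => H P' W (t + δ n) z) atTop (𝓝 (H P' W t z)) := by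
  have hlub : ∀ (t : ℝ≥0) (x : ℝ≥0 → ℝ), Continuous x → IsLUB (x '' Set.Iic t) (sp t x) :=
    fun t => (hM Ω' P' W hW t).2.2.2.2
  unfold H
  exact (tendsto_U hM hW t _ (continuous_sp hlub z hz) δ hδ hδ1).add
    (tendsto_U hM hW t _ (continuous_sp hlub _ hz.neg) δ hδ hδ1)

end

/-- survival probability given the path, for the event `{T > t}` -/
def VSStmt : Prop :=
  ∀ (Ω : Type u) [MeasurableSpace Ω] (P : Measure Ω) [IsProbabilityMeasure P] (lam : ℝ≥0)
    (X : ℝ≥0 → Ω → ℝ) (x : ℕ → Ω → ℝ) (Y : ℕ → ℝ≥0 → Ω → ℝ)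
    (Ω' : Type v) [MeasurableSpace Ω'] (P' : Measure Ω') [IsProbabilityMeasure P']
    (W : ℝ≥0 → Ω' → ℝ) (a : ℝ), TrapModel P lam X x Y → IsBM P' W → 0 ≤ a →
    ∀ (t : ℝ≥0) (A : Set (ℝ≥0 → ℝ)), MeasurableSet A →
      P ({ω | (fun u => X u ω) ∈ A} ∩ surv a X x Y t) =
        ENNReal.ofReal (Real.exp (-(lam * (2 * a)))) *
          ∫⁻ ω in {ω | (fun u => X u ω) ∈ A}, wt lam P' W t (fun u => X u ω) ∂P

theorem vs_of_v (hM : TaskM.{v}) (hV : VStmt.{u, v}) : VSStmt.{u, v} := by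
  intro Ω _ P _ lam X x Y Ω' _ P' _ W a hT hW ha t A hA
  apply le_antisymm
  · rw [← hV Ω P lam X x Y Ω' P' W a hT hW ha t A hA]
    exact measure_mono (Set.inter_subset_inter_right _ (surv_subset_alive a X x Y t))
  · let δ : ℕ → ℝ≥0 := fun n => 1 / ((n : ℝ≥0) + 1)
    have hδ : Tendsto δ atTop (𝓝 0) := tendsto_one_div_add_atTop_nhds_zero_nat
    have hδ0 : ∀ n, 0 < δ n := fun n => by positivity
    have hδ1 : ∀ n, δ n ≤ 1 := fun n => by
      apply div_le_one_of_le₀ _ bot_le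
      simp
    have hmX : Measurable (fun ω => (fun u => X u ω : ℝ≥0 → ℝ)) :=
      measurable_pi_lambda _ hT.particle.meas
    have hmw : ∀ s : ℝ≥0, Measurable fun ω => wt lam P' W s (fun u => X u ω) := by
      intro s
      have hH := (hM Ω' P' W hW s).1
      have : Measurable (wt lam P' W s) := by
        unfold wt
        exact (Real.measurable_exp.comp (hH.const_mul _).neg).ennreal_ofReal
      exact this.comp hmX
    have hle : ∀ n, ENNReal.ofReal (Real.exp (-(lam * (2 * a)))) *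
        ∫⁻ ω in {ω | (fun u => X u ω) ∈ A}, wt lam P' W (t + δ n) (fun u => X u ω) ∂P ≤
        P ({ω | (fun u => X u ω) ∈ A} ∩ surv a X x Y t) := by
      intro n
      rw [← hV Ω P lam X x Y Ω' P' W a hT hW ha (t + δ n) A hA]
      exact measure_mono (Set.inter_subset_inter_right _ (alive_subset_surv a X x Y t _
        (lt_add_of_pos_right t (hδ0 n))))
    set e := ENNReal.ofReal (Real.exp (-(lam * (2 * a)))) with he
    have he0 : e ≠ 0 := by
      rw [ne_eq, he, ENNReal.ofReal_eq_zero, not_le]; exact Real.exp_pos _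
    have het : e ≠ ∞ := ENNReal.ofReal_ne_top
    have hF : ∫⁻ ω in {ω | (fun u => X u ω) ∈ A}, wt lam P' W t (fun u => X u ω) ∂P ≤
        liminf (fun n => ∫⁻ ω in {ω | (fun u => X u ω) ∈ A},
          wt lam P' W (t + δ n) (fun u => X u ω) ∂P) atTop := by
      refine le_trans (lintegral_mono_ae ?_)
        (lintegral_liminf_le (fun n => hmw (t + δ n)))
      filter_upwards [ae_restrict_of_ae hT.particle.cont] with ω hc
      have h1 := tendsto_H hM hW t _ hc δ hδ hδ1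
      have h2 : Tendsto (fun n => wt lam P' W (t + δ n) (fun u => X u ω)) atTop
          (𝓝 (wt lam P' W t (fun u => X u ω))) := by
        unfold wt
        exact ENNReal.tendsto_ofReal ((Real.continuous_exp.tendsto _).comp
          (h1.const_mul _).neg)
      rw [h2.liminf_eq]
    have hL : liminf (fun n => ∫⁻ ω in {ω | (fun u => X u ω) ∈ A},
          wt lam P' W (t + δ n) (fun u => X u ω) ∂P) atTop ≤
        e⁻¹ * P ({ω | (fun u => X u ω) ∈ A} ∩ surv a X x Y t) := by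
      refine liminf_le_of_frequently_le' (Frequently.of_forall fun n => ?_)
      have := mul_le_mul_right (hle n) e⁻¹
      rwa [← mul_assoc, ENNReal.inv_mul_cancel he0 het, one_mul] at this
    have := mul_le_mul_right (hF.trans hL) e
    rwa [← mul_assoc, ENNReal.mul_inv_cancel he0 het, one_mul] at this

end Pool.Agent.H143R3.BT
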